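import Pool.Agent.Helper45.AM.GoalsA
import Pool.Agent.Helper15.AM.GoalsG

/-!
Packet AM-AU (MP_cc6379_al): approximate factorization of `c_(κ b)`.
-/

set_option autoImplicit false

open LaurentPolynomial Pool.Agent.Helper15.RA Pool.Agent.Helper45.AM

noncomputable section

namespace Pool.Agent.Helper20.AM

theorem par_mono {S W : Type} [Group W] {M : CoxeterMatrix S} (cs : CoxeterSystem M W) {P Q : Set S}
    (h : P ⊆ Q) : par cs P ≤ par cs Q :=
  Subgroup.closure_mono (Set.image_mono h)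

/-- The coefficient of `v^n` as an additive homomorphism. -/
def cf (n : ℤ) : ℤ[T;T⁻¹] →+ ℤ where
  toFun p := p.coeff n
  map_zero' := rfl
  map_add' p q := by rw [AddMonoidAlgebra.coeff_add, Finsupp.add_apply]

theorem degLE_zsmul {k : ℤ} {p : ℤ[T;T⁻¹]} (h : DegLE k p) (m : ℤ) : DegLE k (m • p) := fun n hn => by
  have h1 : cf n (m • p) = m • cf n p := map_zsmul _ _ _
  have h2 : cf n p = 0 := h n hn
  rw [h2, smul_zero] at h1
  exact h1

theorem h_a_u (hPC : Pool.Agent.Helper15.AM.G_PC) (hS : A_S) (hO : A_O) (hP : A_P) (hJ : A_J) (hC : A_C) :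
    A_U := by
  intro S W H _ _ _ X P Q α hPQ pgP pgQ κ b hκ hb hbQ
  classical
  obtain ⟨-, -, -, -, hU⟩ := hJ S W H X P α pgP
  obtain ⟨lam, hsupp, hone, hzero⟩ := hU κ hκ
  have hle := par_mono X.cs hPQ
  set F : W →₀ ℤ[T;T⁻¹] := lam.sum fun p m => m • X.h p.1 (p.2 * b) with hF
  have hFz : ∀ z, F z = lam.sum fun p m => m • X.h p.1 (p.2 * b) z := by
    intro z
    rw [hF]
    exact map_finsuppSum (Finsupp.applyAddHom z) lam fun p m => m • X.h p.1 (p.2 * b)
  have hFd : ∀ z, ∀ κ' b', κ' ∈ par X.cs P → XL X.cs P b' → z = κ' * b' → DegLE (α κ') (F z) ∧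
      (F z).coeff (α κ' : ℤ) = if b' = b ∧ κ' = κ then 1 else 0 := by
    intro z κ' b' hκ' hb' hz
    have hc := (hC S W H X P α pgP).2
    rw [hFz z]
    constructor
    · refine DegLE.sum fun p hp => degLE_zsmul ?_ _
      obtain ⟨h1, h2, -, -⟩ := hsupp p hp
      rw [hz]
      exact (hc p.2 b p.1 κ' b' hb h2 h1 hb' hκ').1
    · have h3 : cf (α κ') (lam.sum fun p m => m • X.h p.1 (p.2 * b) z) =
          lam.sum fun p m => m * (X.h p.1 (p.2 * b) z).coeff (α κ' : ℤ) := by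
        rw [map_finsuppSum]
        refine Finsupp.sum_congr fun p _ => ?_
        rw [map_zsmul, smul_eq_mul]
        rfl
      change cf (α κ') _ = _
      rw [h3]
      by_cases hbb : b' = b
      · have h4 : (lam.sum fun p m => m * (X.h p.1 (p.2 * b) z).coeff (α κ' : ℤ)) =
            lam.sum fun p m => m * (X.h p.1 p.2 κ').coeff (α κ' : ℤ) := by
          refine Finsupp.sum_congr fun p hp => ?_
          obtain ⟨h1, h2, -, -⟩ := hsupp p hp
          rw [hz, (hc p.2 b p.1 κ' b' hb h2 h1 hb' hκ').2.1 hbb]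
        rw [h4]
        by_cases hkk : κ' = κ
        · rw [if_pos ⟨hbb, hkk⟩, hkk]
          exact hone
        · rw [if_neg fun h => hkk h.2]
          exact hzero κ' hκ' hkk
      · rw [if_neg fun h => hbb h.1]
        refine Finset.sum_eq_zero fun p hp => ?_
        obtain ⟨h1, h2, -, -⟩ := hsupp p hp
        dsimp only
        rw [hz, (hc p.2 b p.1 κ' b' hb h2 h1 hb' hκ').2.2 hbb, mul_zero]
  refine ⟨lam, (T (-(α κ : ℤ)) : ℤ[T;T⁻¹]) • F - Finsupp.single (κ * b) 1, hsupp, ?_, ?_⟩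
  · intro z hz
    have hez : ((T (-(α κ : ℤ)) : ℤ[T;T⁻¹]) • F - Finsupp.single (κ * b) 1 : W →₀ ℤ[T;T⁻¹]) z =
        T (-(α κ : ℤ)) * F z - (Finsupp.single (κ * b) (1 : ℤ[T;T⁻¹])) z := by
      rw [Finsupp.sub_apply, Finsupp.smul_apply, smul_eq_mul]
    have hz0 := Finsupp.mem_support_iff.1 hz
    rw [hez] at hz0 ⊢
    have hab : z ∈ par X.cs Q ∧ α (κ * b) ≤ α z := by
      by_cases hzk : z = κ * b
      · rw [hzk]
        exact ⟨mul_mem (hle hκ) hbQ, le_rfl⟩
      · rw [Finsupp.single_eq_of_ne hzk, sub_zero] at hz0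
        have hF0 : F z ≠ 0 := right_ne_zero_of_mul hz0
        rw [hFz z] at hF0
        obtain ⟨p, hp, hp0⟩ := Finset.exists_ne_zero_of_sum_ne_zero hF0
        obtain ⟨h1, h2, -, h4⟩ := hsupp p hp
        have hp1 : X.h p.1 (p.2 * b) z ≠ 0 := fun h => hp0 (by dsimp only; rw [h, smul_zero])
        have h2b : p.2 * b ∈ par X.cs Q := mul_mem (hle h2) hbQ
        have hzQ : z ∈ par X.cs Q := (hS S W H X Q).2.2.2.2.2.1 p.1 (hle h1) (p.2 * b) h2b z hp1
        refine ⟨hzQ, le_trans ?_ (pgQ.p4 p.1 (hle h1) (p.2 * b) h2b z hzQ hp1).2⟩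
        have h5 := (hO S W H X P Q).2.2.2.2.2 hPQ b κ p.2 hb hκ h4.1
        have h6 := (hO S W H X P Q).2.2.2.2.2 hPQ b p.2 κ hb h2 h4.2
        have hmono := (hP S W H X Q α pgQ).2.1
        exact (hmono _ _ (mul_mem (hle hκ) hbQ) h5).2
    refine ⟨hab.1, hab.2, ?_⟩
    intro κ' b' hκ' hb' hzz
    obtain ⟨hd, hco⟩ := hFd z κ' b' hκ' hb' hzz
    have hd1 : DegLE (-(α κ : ℤ) + α κ') (T (-(α κ : ℤ)) * F z) := (DegLE.T_le le_rfl).mul hd
    have hc1 : (T (-(α κ : ℤ)) * F z).coeff (-(α κ : ℤ) + α κ') = (F z).coeff (α κ' : ℤ) := by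
      rw [coeff_mul_top (DegLE.T_le le_rfl) hd, T_apply, if_pos rfl, one_mul]
    have hex : ((α κ' : ℤ) - α κ) = -(α κ : ℤ) + α κ' := by ring
    rw [hex]
    by_cases hbk : b' = b ∧ κ' = κ
    · have hzk : z = κ * b := by rw [hzz, hbk.1, hbk.2]
      rw [hzk] at hd1 hc1 hco ⊢
      rw [Finsupp.single_eq_same]
      rw [if_pos hbk] at hco
      refine degLE_sub_one (hd1.sub (DegLE.one ?_)) ?_
      · rw [hbk.2]
        omega
      · have h9 := map_sub (cf (-(α κ : ℤ) + α κ')) (T (-(α κ : ℤ)) * F (κ * b)) 1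
        have h10 : (cf (-(α κ : ℤ) + α κ')) (T (-(α κ : ℤ)) * F (κ * b)) = 1 := hc1.trans hco
        have h11 : (cf (-(α κ : ℤ) + α κ')) (1 : ℤ[T;T⁻¹]) = 1 := by
          rw [hbk.2, neg_add_cancel]
          change (1 : ℤ[T;T⁻¹]).coeff 0 = 1
          rw [← T_zero, T_apply, if_pos rfl]
        rw [h10, h11, sub_self] at h9
        exact h9
    · have hzk : z ≠ κ * b := by
        intro h
        refine hbk ?_
        obtain ⟨h7, h8⟩ := (hPC S W X.M X.cs P).2.2.2.2.2.1 b' b κ' κ hb' hb hκ' hκ (hzz.symm.trans h)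
        exact ⟨h7, h8⟩
      rw [Finsupp.single_eq_of_ne hzk, sub_zero]
      rw [if_neg hbk] at hco
      exact degLE_sub_one hd1 (hc1.trans hco)
  · have key : ∀ f : W →₀ ℤ[T;T⁻¹], (f.sum fun z q => q • X.D.c z) =
        Finsupp.linearCombination ℤ[T;T⁻¹] X.D.c f := fun f => rfl
    have h1 : Finsupp.linearCombination ℤ[T;T⁻¹] X.D.c F =
        lam.sum fun p m => m • (X.D.c p.1 * X.D.c (p.2 * b)) := by
      rw [hF, map_finsuppSum]
      refine Finsupp.sum_congr fun p _ => ?_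
      rw [map_zsmul, X.isH p.1 (p.2 * b)]
      rfl
    rw [key, map_sub, map_smul, h1, Finsupp.linearCombination_single, one_smul, sub_sub_cancel]

end Pool.Agent.Helper20.AM
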